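import Pool.Agent.Lib.MP_21f752_an.U.Main

namespace Pool.Agent.Results.MP_21f752_an.Surface

open Pool.Agent.Lib.MP_21f752_an.U
open scoped Manifold ContDiff

theorem result (E : Type) [NormedAddCommGroup E] [NormedSpace ℝ E] (hE : Module.finrank ℝ E = 2)
    (M : Type) [TopologicalSpace M] [T2Space M] [CompactSpace M] [ConnectedSpace M]
    [ChartedSpace E M] [IsManifold 𝓘(ℝ, E) ∞ M] (γ : ℕ) (hγ : 2 ≤ γ) (hM : betti1 M = 2 * γ)
    (g : Met E M) (J : M → E →L[ℝ] E) (hJ : IsRot g J)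
    (b : M → ℝ) (hb : ContMDiff 𝓘(ℝ, E) 𝓘(ℝ, ℝ) ∞ b)
    (k : ℝ) (hk : 0 < k) (hnc : NoConjugate g J b k) (hent : ZeroEnt g J b k) :
    (∃ κ, ∀ x u v, LinearIndependent ℝ ![u, v] → gauss g x u v = κ) ∧ ∃ β, ∀ x, b x = β :=
  rigid_surface hE (by omega) g J hJ b hb k hk hnc hent

end Pool.Agent.Results.MP_21f752_an.Surface
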